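import Mathlib

/-!
# The primes `≡ 1 mod 4` that split in `ℚ(√-7)`
-/

set_option autoImplicit false

namespace Pool.Agent.R428.Q0

lemma neg_iff {p : ℕ} [Fact p.Prime] (h4 : p % 4 = 1) (m : ZMod p) : IsSquare (-m) ↔ IsSquare m := by
  have h1 : IsSquare (-1 : ZMod p) := ZMod.exists_sq_eq_neg_one_iff.2 (by omega)
  constructor
  · intro h
    have h2 := h1.mul h
    rwa [neg_mul_neg, one_mul] at h2
  · intro h
    have h2 := h1.mul h
    rwa [neg_mul, one_mul] at h2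

lemma sq_mod7 (n : ℕ) : IsSquare (n : ZMod 7) ↔
    (n % 7 = 0 ∨ n % 7 = 1 ∨ n % 7 = 2 ∨ n % 7 = 4) := by
  have e : (n : ZMod 7) = ((n % 7 : ℕ) : ZMod 7) := by rw [ZMod.natCast_mod]
  rw [e]
  have h : n % 7 < 7 := Nat.mod_lt _ (by norm_num)
  generalize n % 7 = m at h
  interval_cases m <;> decide

/-- the primes `≡ 1 mod 4` that split -/
lemma sq7_iff {p : ℕ} (hp : p.Prime) (h4 : p % 4 = 1) :
    IsSquare (-7 : ZMod p) ↔ (p % 7 = 1 ∨ p % 7 = 2 ∨ p % 7 = 4) := by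
  have : Fact p.Prime := ⟨hp⟩
  have : Fact (Nat.Prime 7) := ⟨by norm_num⟩
  have h1 := ZMod.exists_sq_eq_prime_iff_of_mod_four_eq_one (p := p) (q := 7) h4 (by norm_num)
  have e : ((7 : ℕ) : ZMod p) = 7 := by push_cast; rfl
  rw [e] at h1
  rw [neg_iff h4, h1, sq_mod7]
  constructor
  · rintro (h | h)
    · exfalso
      have h2 : 7 ∣ p := Nat.dvd_of_mod_eq_zero h
      have h3 := (Nat.prime_dvd_prime_iff_eq (by norm_num) hp).1 h2
      omega
    · exact h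
  · exact Or.inr

end Pool.Agent.R428.Q0
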