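import Pool.Agent.R428.Q0.An
import Pool.Agent.Y698.SG.Ebb

/-!
# The converse over a field of degree one, and many elements of order two
-/

set_option autoImplicit false
set_option linter.unusedSectionVars false

namespace Pool.Agent.R428.Q0

open Pool.Agent.Y698 Pool.Agent.Y698.SG
open NumberField IsDedekindDomain IsCyclotomicExtension.Rat WithZero WeierstrassCurve
open Pool.Agent.H921R2.TatePole Pool.Agent.H82R3.EK
open Pool.Agent.TH841.SH.D (Pt act Coch IsCoc IsCob LocTriv cob cob_zero)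
open Pool.Agent.TH841.NF.D (Sha shaCoc)
open Pool.Agent.Y700 (VR)
open Cv (WF LocI coc)

section
variable {r : ℕ} [hr : Fact r.Prime] (Mr : Type) [Field Mr] [NumberField Mr]
  [hMr : IsCyclotomicExtension {r} ℚ Mr] (K : Type) [Field K] [NumberField K] [Algebra K Mr]

include hMr in
/-- the family of the elements of order two -/
theorem sha_fam0 {Q P : Finset ℕ} (hd : DQ r Q P) {j : ℕ}
    (hj : ∏ q ∈ Q ∪ P, q = 1 + 4 * j)
    (hf : Finite (AX K j).toAffine.Point) (hPS : P ⊆ P) :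
    ∃ f : LinearMap.ker (eqs (fun i => n4 i + ∑ q ∈ Q, nq i q) nq P P hPS) →
      Sha (AX K j), Function.Injective f ∧ ∀ x, f x + f x = 0 := by
  classical
  set c : ℕ → ZMod 2 := fun i => n4 i + ∑ q ∈ Q, nq i q with hc
  have hir := hd.hr
  have hdj := hd.disj
  have hS : ∀ q ∈ P, Gp q ∧ q ≠ r := fun q hq =>
    ⟨hd.gp q (Finset.mem_union_right _ hq), hd.ne q (Finset.mem_union_right _ hq)⟩
  have hsub : ∀ x : P → ZMod 2, spt P x ⊆ P := fun x => Finset.filter_subset _ _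
  have hD0 : (1 + 4 * (j : K)) ≠ 0 := by
    have : ((1 + 4 * j : ℕ) : K) ≠ 0 := by
      rw [Nat.cast_ne_zero]
      omega
    push_cast at this
    exact this
  have hDZ : ((1 + 4 * j : ℕ) : ℤ) ≠ 0 := by
    rw [Nat.cast_ne_zero]
    omega
  have hb : 112 * ((1 + 4 * j : ℕ) : ℤ) ^ 2 ≠ 0 := mul_ne_zero (by norm_num) (pow_ne_zero 2 hDZ)
  have hab : (21 * ((1 + 4 * j : ℕ) : ℤ)) ^ 2 - 4 * (112 * ((1 + 4 * j : ℕ) : ℤ) ^ 2) ≠ 0 := by
    have e : (21 * ((1 + 4 * j : ℕ) : ℤ)) ^ 2 - 4 * (112 * ((1 + 4 * j : ℕ) : ℤ) ^ 2) =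
      -7 * ((1 + 4 * j : ℕ) : ℤ) ^ 2 := by ring
    rw [e]
    exact mul_ne_zero (by norm_num) (pow_ne_zero 2 hDZ)
  have eab : ((21 * ((1 + 4 * j : ℕ) : ℤ) : ℤ) : K) ^ 2 -
      4 * ((112 * ((1 + 4 * j : ℕ) : ℤ) ^ 2 : ℤ) : K) = -7 * (1 + 4 * (j : K)) ^ 2 := by
    push_cast
    ring
  have nb : ¬ IsSquare ((112 * ((1 + 4 * j : ℕ) : ℤ) ^ 2 : ℤ) : K) := by
    rintro ⟨s, hs⟩
    apply seven_nonsq (r := r) Mr K hir.ns (s / (4 * (1 + 4 * (j : K))))
    push_cast at hs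
    field_simp
    linear_combination -hs
  have nab : ¬ IsSquare (((21 * ((1 + 4 * j : ℕ) : ℤ) : ℤ) : K) ^ 2 -
      4 * ((112 * ((1 + 4 * j : ℕ) : ℤ) ^ 2 : ℤ) : K)) := by
    rw [eab]
    rintro ⟨s, hs⟩
    apply a_notin (r := r) Mr K hir.ns ((1 + s / (1 + 4 * (j : K))) / 2)
    field_simp
    linear_combination -hs
  have hV := vr_AX K j
  have hVD := AX_ne K j
  have hfW : Finite (WF K (21 * ((1 + 4 * j : ℕ) : ℤ))
      (112 * ((1 + 4 * j : ℕ) : ℤ) ^ 2)).toAffine.Point :=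
    Finite.of_equiv _ (hV.equiv hVD).toEquiv
  have hposs : ∀ J ⊆ P, ∏ q ∈ J, q ≠ 0 := fun J hJ =>
    Finset.prod_ne_zero_iff.2 fun q hq => (hS q (hJ hq)).1.pr.ne_zero
  have hloc : ∀ x : LinearMap.ker (eqs c nq P P hPS),
      (∀ v : HeightOneSpectrum (𝓞 K), LocI (v.adicCompletion K) (21 * ((1 + 4 * j : ℕ) : ℤ))
        (112 * ((1 + 4 * j : ℕ) : ℤ) ^ 2) ((∏ q ∈ spt P x.1, q : ℕ) : ℤ)) ∧
      LocI ℝ (21 * ((1 + 4 * j : ℕ) : ℤ))
        (112 * ((1 + 4 * j : ℕ) : ℤ) ^ 2) ((∏ q ∈ spt P x.1, q : ℕ) : ℤ) := by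
    intro x
    obtain ⟨h1, h2⟩ := spt_eqs c nq P P hPS (x := x.1) (LinearMap.mem_ker.1 x.2)
    obtain ⟨l1, l2⟩ := loc_all (J := spt P x.1) (fun q hq => (hd.hQ q hq).1) hd.hP (hsub x.1)
      (fun i hi => h1 i (Finset.mem_sdiff.1 hi).1 (Finset.mem_sdiff.1 hi).2)
      (fun i hi => h2 i (hsub x.1 hi) hi)
    rw [hj] at l1 l2
    refine ⟨fun v => ?_, l2⟩
    have : Fact (below v : ℕ).Prime := ⟨(below v).2⟩
    exact loc_map (Th.pth (v := v) (p := (below v : ℕ)) (nm_eq v).2.2) (l1 _)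
  obtain ⟨f, hfi, hf2⟩ := sha_inj K hb hab nb nab hfW
    (d := fun x : LinearMap.ker (eqs c nq P P hPS) =>
      ((∏ q ∈ spt P x.1, q : ℕ) : ℤ))
    (fun x => Nat.cast_ne_zero.2 (hposs _ (hsub x.1))) (fun x => (hloc x).1) (fun x => (hloc x).2)
    (by
      intro x y hxy
      have hne : spt P x.1 ≠ spt P y.1 := fun h =>
        hxy (Subtype.ext (spt_inj P h))
      have hsd : ((spt P x.1 \ spt P y.1) ∪
          (spt P y.1 \ spt P x.1)).Nonempty := by
        by_contra hcon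
        rw [Finset.not_nonempty_iff_eq_empty, Finset.union_eq_empty,
          Finset.sdiff_eq_empty_iff_subset, Finset.sdiff_eq_empty_iff_subset] at hcon
        exact hne (Finset.Subset.antisymm hcon.1 hcon.2)
      have hsS : ∀ q ∈ (spt P x.1 \ spt P y.1) ∪
          (spt P y.1 \ spt P x.1), Gp q ∧ q ≠ r := by
        intro q hq
        rcases Finset.mem_union.1 hq with h | h
        · exact hS q (hsub x.1 (Finset.mem_sdiff.1 h).1)
        · exact hS q (hsub y.1 (Finset.mem_sdiff.1 h).1)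
      obtain ⟨n1, n2⟩ := not_sq_d Mr K hsS hsd
      have he0 : ((∏ q ∈ spt P x.1 ∩ spt P y.1, q : ℕ) : K) ≠ 0 :=
        Nat.cast_ne_zero.2 (hposs _ (Finset.inter_subset_left.trans (hsub x.1)))
      have hpr : (((∏ q ∈ spt P x.1, q : ℕ) : ℤ) * ((∏ q ∈ spt P y.1, q : ℕ) : ℤ) : ℤ)
          = ((∏ q ∈ (spt P x.1 \ spt P y.1) ∪
            (spt P y.1 \ spt P x.1), q : ℕ) : ℤ) *
            ((∏ q ∈ spt P x.1 ∩ spt P y.1, q : ℕ) : ℤ) ^ 2 := by
        exact_mod_cast prod_symm (spt P x.1) (spt P y.1)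
      have hpK : (((((∏ q ∈ spt P x.1, q : ℕ) : ℤ) *
          ((∏ q ∈ spt P y.1, q : ℕ) : ℤ) : ℤ)) : K)
          = ((((∏ q ∈ (spt P x.1 \ spt P y.1) ∪
            (spt P y.1 \ spt P x.1), q : ℕ) : ℤ)) : K) *
            ((∏ q ∈ spt P x.1 ∩ spt P y.1, q : ℕ) : K) ^ 2 := by
        rw [hpr, Int.cast_mul, Int.cast_pow, Int.cast_natCast (R := K)
          (∏ q ∈ spt P x.1 ∩ spt P y.1, q)]
      generalize ((∏ q ∈ spt P x.1 ∩ spt P y.1, q : ℕ) : K) = e at he0 hpK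
      generalize ((((∏ q ∈ (spt P x.1 \ spt P y.1) ∪
            (spt P y.1 \ spt P x.1), q : ℕ) : ℤ)) : K) = z at n1 n2 hpK
      refine ⟨?_, ?_⟩
      · show ¬ IsSquare (((((∏ q ∈ spt P x.1, q : ℕ) : ℤ) *
          ((∏ q ∈ spt P y.1, q : ℕ) : ℤ) : ℤ)) : K)
        rw [hpK]
        rintro ⟨s, hs⟩
        apply n1
        refine ⟨s / e, ?_⟩
        field_simp
        linear_combination hs
      · show ¬ IsSquare ((((((∏ q ∈ spt P x.1, q : ℕ) : ℤ) *
          ((∏ q ∈ spt P y.1, q : ℕ) : ℤ) : ℤ)) : K) * _)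
        rw [hpK, eab]
        rintro ⟨s, hs⟩
        apply n2 _ hD0
        refine ⟨s / e, ?_⟩
        field_simp
        linear_combination hs)
  have hI := (Pool.Agent.Y655.XT.isoVR hV hVD).sha
  refine ⟨fun x => hI.symm (f x), fun x y h => hfi (hI.symm.injective h), fun x => ?_⟩
  rw [← map_add, hf2, map_zero]

include hMr in
/-- the number of the elements of order two -/
theorem sha_card0 {Q P : Finset ℕ} (hd : DQ r Q P) {j : ℕ}
    (hj : ∏ q ∈ Q ∪ P, q = 1 + 4 * j)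
    (hf : Finite (AX K j).toAffine.Point) :
    ∃ f : Fin (2 ^ (P.card - (matG Q P P P).rank)) → Sha (AX K j),
      Function.Injective f ∧ ∀ x, f x + f x = 0 := by
  classical
  have hPS : P ⊆ P := subset_rfl
  obtain ⟨f, hfi, hf2⟩ := sha_fam0 Mr K hd hj hf hPS
  have hLM : eqs (fun i => n4 i + ∑ q ∈ Q, nq i q) nq P P hPS =
      (matG Q P P P).mulVecLin := by
    refine LinearMap.ext fun x => ?_
    have h := matG_eqs (Q4 := ∅) hd.disj (Finset.empty_subset Q) (subset_rfl : P ⊆ P)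
      (Finset.union_empty P).symm hPS x
    rw [← h]
    simp only [Finset.sdiff_empty]
  generalize eqs (fun i => n4 i + ∑ q ∈ Q, nq i q) nq P P hPS = L at f hfi hf2 hLM
  have h1 := LinearMap.finrank_range_add_finrank_ker L
  have h2 : Module.finrank (ZMod 2) (LinearMap.range L) = (matG Q P P P).rank := by
    rw [hLM]
    rfl
  rw [Module.finrank_fintype_fun_eq_card, Fintype.card_coe, h2] at h1
  have h3 : Nat.card (LinearMap.ker L) =
      2 ^ (P.card - (matG Q P P P).rank) := by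
    rw [Module.natCard_eq_pow_finrank (K := ZMod 2), Nat.card_zmod]
    congr 1
    omega
  have e : Fin (2 ^ (P.card - (matG Q P P P).rank)) ≃ LinearMap.ker L :=
    (Finite.equivFinOfCardEq h3).symm
  exact ⟨fun x => f (e x), hfi.comp e.injective, fun x => hf2 (e x)⟩

lemma matG_mat {Q P : Finset ℕ} : matG Q P P P = mat Q P := by
  classical
  ext i j
  unfold matG mat
  rw [Matrix.of_apply, Matrix.of_apply]
  by_cases h : i = j
  · rw [if_pos h, if_pos (congrArg Subtype.val h)]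
  · rw [if_neg h, if_neg (fun h' => h (Subtype.ext h'))]

include hMr in
/-- the number of the elements of order two -/
theorem sha_card1 {Q P : Finset ℕ} (hd : DQ r Q P) {j : ℕ}
    (hj : ∏ q ∈ Q ∪ P, q = 1 + 4 * j)
    (hf : Finite (AX K j).toAffine.Point) :
    ∃ f : Fin (2 ^ (P.card - (mat Q P).rank)) → Sha (AX K j),
      Function.Injective f ∧ ∀ x, f x + f x = 0 := by
  have h := sha_card0 Mr K hd hj hf
  rwa [matG_mat] at h

include hMr in
/-- **the converse** -/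
theorem conv0 {Q P : Finset ℕ} (hd : DQ r Q P) {j : ℕ}
    (hj : ∏ q ∈ Q ∪ P, q = 1 + 4 * j) (hf : Finite (AX K j).toAffine.Point)
    (hsh : ∀ x : Sha (AX K j), x + x = 0 → x = 0) : (mat Q P).det ≠ 0 := by
  classical
  intro hdet
  have hPS : P ⊆ P := subset_rfl
  obtain ⟨x, hx0, hx⟩ := Matrix.exists_mulVec_eq_zero_iff.2 hdet
  obtain ⟨f, hfi, hf2⟩ := sha_fam0 Mr K hd hj hf hPS
  have hmem : x ∈ LinearMap.ker (eqs (fun i => n4 i + ∑ q ∈ Q, nq i q) nq P P hPS) := by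
    rw [LinearMap.mem_ker]
    have h := matG_eqs (Q4 := ∅) hd.disj (Finset.empty_subset Q) (subset_rfl : P ⊆ P)
      (Finset.union_empty P).symm hPS x
    simp only [Finset.sdiff_empty] at h
    rw [h, matG_mat]
    exact hx
  have h1 := hsh _ (hf2 ⟨x, hmem⟩)
  have h2 := hsh _ (hf2 0)
  exact hx0 (congrArg Subtype.val (hfi (h1.trans h2.symm)))

end

end Pool.Agent.R428.Q0
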