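import Pool.Agent.Y698.SG.Ebb
import Pool.Agent.Y703.CQ.Fin
import Pool.Agent.R428.Q0.Conv

/-!
# The exact proportion of the nonsingular matrices
-/

set_option autoImplicit false
set_option linter.unusedSectionVars false

open scoped Classical

namespace Pool.Agent.R428.Q0

open Finset
open Pool.Agent.Y698 Pool.Agent.Y698.SG
open Pool.Agent.Y703.CQ (Sol Gd cu nr Cl Sp In Ok S_DEN c2)

lemma nr_nq (p n : ℕ) : nr p n = nq p n := by
  unfold nr nq
  split_ifs <;> rfl

/-- the determinant and the kernel -/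
lemma det_iff {Q P : Finset ℕ} (hdj : Disjoint Q P) : (mat Q P).det ≠ 0 ↔
    ∀ x : P → ZMod 2, (∀ i : P, (n4 i + ∑ q ∈ Q, nq i q) * x i +
      ∑ j : P, nq i j * (x i + x j) = 0) → x = 0 := by
  have hPS : P ⊆ P := subset_rfl
  have key : ∀ x : P → ZMod 2, (∀ i : P, (n4 i + ∑ q ∈ Q, nq i q) * x i +
      ∑ j : P, nq i j * (x i + x j) = 0) ↔ (mat Q P).mulVec x = 0 := by
    intro x
    have h := matG_eqs (Q4 := ∅) hdj (Finset.empty_subset Q) (subset_rfl : P ⊆ P)
      (Finset.union_empty P).symm hPS x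
    simp only [Finset.sdiff_empty] at h
    rw [matG_mat] at h
    have h2 : (mat Q P).mulVec x = (mat Q P).mulVecLin x := rfl
    rw [h2, ← h]
    constructor
    · intro h3
      funext i
      exact h3 i
    · intro h3 i
      exact congrFun h3 i
  constructor
  · intro hd x hx
    by_contra hne
    exact hd (Matrix.exists_mulVec_eq_zero_iff.1 ⟨x, hne, (key x).1 hx⟩)
  · intro h hd
    obtain ⟨x, hne, hx⟩ := Matrix.exists_mulVec_eq_zero_iff.2 hd
    exact hne (h x ((key x).2 hx))

theorem gd_iff (S : Finset ℕ) : Gd n4 S ↔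
    (mat (S.filter fun p => p % 8 ≠ 1) (S.filter fun p => p % 8 = 1)).det ≠ 0 := by
  set Q := S.filter fun p => p % 8 ≠ 1 with hQ
  set P := S.filter fun p => p % 8 = 1 with hP
  have hdj : Disjoint Q P := by
    rw [Finset.disjoint_left]
    intro p h1 h2
    exact (Finset.mem_filter.1 h1).2 (Finset.mem_filter.1 h2).2
  rw [det_iff hdj]
  -- the equation
  have heq : ∀ (x : ℕ → ZMod 2) (p : ℕ), p ∈ P →
      (∑ q ∈ S, nr p q * (cu x q + x p) + n4 p * x p =
        (n4 p + ∑ q ∈ Q, nq p q) * x p + ∑ j : P, nq p j * (x p + x j)) := by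
    intro x p hp
    rw [Finset.sum_coe_sort P (fun j => nq p j * (x p + x j))]
    have h1 : ∑ q ∈ S, nr p q * (cu x q + x p) =
        ∑ q ∈ Q, nr p q * (cu x q + x p) + ∑ q ∈ P, nr p q * (cu x q + x p) := by
      rw [hQ, hP, add_comm]
      exact (Finset.sum_filter_add_sum_filter_not S (fun q => q % 8 = 1) _).symm
    have h2 : ∑ q ∈ Q, nr p q * (cu x q + x p) = (∑ q ∈ Q, nq p q) * x p := by
      rw [Finset.sum_mul]
      refine Finset.sum_congr rfl fun q hq => ?_
      have h3 : cu x q = 0 := if_neg (Finset.mem_filter.1 hq).2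
      rw [h3, zero_add, nr_nq]
    have h3 : ∑ q ∈ P, nr p q * (cu x q + x p) = ∑ q ∈ P, nq p q * (x p + x q) := by
      refine Finset.sum_congr rfl fun q hq => ?_
      have h3 : cu x q = x q := if_pos (Finset.mem_filter.1 hq).2
      rw [h3, nr_nq, add_comm (x q)]
    rw [h1, h2, h3]
    ring
  constructor
  · intro hg x hx
    set y : ℕ → ZMod 2 := fun i => if h : i ∈ P then x ⟨i, h⟩ else 0 with hy
    have hyx : ∀ i : P, y i = x i := fun i => dif_pos i.2
    have hs : Sol n4 S y := by
      intro p hp h8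
      have hpP : p ∈ P := Finset.mem_filter.2 ⟨hp, h8⟩
      rw [heq y p hpP]
      have h1 := hx ⟨p, hpP⟩
      have h2 : y p = x ⟨p, hpP⟩ := hyx ⟨p, hpP⟩
      rw [h2]
      simp only [hyx]
      exact h1
    funext i
    have h1 := hg y hs i (Finset.mem_filter.1 i.2).1 (Finset.mem_filter.1 i.2).2
    rw [hyx] at h1
    exact h1
  · intro h x hs p hp h8
    have h1 := h (fun i : P => x i) (fun i => by
      have h2 := hs i (Finset.mem_filter.1 i.2).1 (Finset.mem_filter.1 i.2).2
      rw [heq x i i.2] at h2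
      exact h2)
    exact congrFun h1 ⟨p, Finset.mem_filter.2 ⟨hp, h8⟩⟩

lemma ok5 : Ok {5} {0} := ⟨Or.inl rfl, Or.inl (Finset.mem_singleton_self 0)⟩

/-- the product modulo eight -/
lemma prod_mod_eight {S : Finset ℕ} (h : ∀ p ∈ S, p % 8 = 1 ∨ p % 8 = 5) :
    (∏ p ∈ S, p) % 8 = 1 ↔ (S.filter fun p => p % 8 = 5).card % 2 = 0 := by
  have key : (∏ p ∈ S, p) % 8 = if (S.filter fun p => p % 8 = 5).card % 2 = 0 then 1 else 5 := by
    induction S using Finset.induction_on with
    | empty => rfl
    | insert q S hq ih =>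
      have ih' := ih fun p hp => h p (Finset.mem_insert_of_mem hp)
      rw [Finset.prod_insert hq, Nat.mul_mod, ih', Finset.filter_insert]
      rcases h q (Finset.mem_insert_self q S) with h1 | h1
      · have h5 : ¬ (q % 8 = 5) := by omega
        rw [if_neg h5, h1]
        split_ifs <;> rfl
      · rw [if_pos h1, h1, Finset.card_insert_of_notMem (fun h2 => hq (Finset.mem_filter.1 h2).1)]
        split_ifs with h2 h3 h3
        · omega
        · rfl
        · rfl
        · omega
  rw [key]
  split_ifs with h1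
  · simp [h1]
  · simp [h1]

end Pool.Agent.R428.Q0
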