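import Pool.Agent.R428.Q0.Dat
import Pool.Agent.R428.Q0.Pu
import Pool.Agent.R428.Q0.Shbd
import Pool.Agent.Y698.SG.Fj

/-!
# The Mordell-Weil groups and the Tate-Shafarevich groups of the twists over `ℚ`
-/

set_option autoImplicit false
set_option linter.unusedSectionVars false

namespace Pool.Agent.R428.Q0

open Pool.Agent.Y698 Pool.Agent.Y698.SG

open NumberField IsDedekindDomain IsCyclotomicExtension.Rat WithZero
open Pool.Agent.H921R2.TatePole Pool.Agent.H82R3.EK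
open Pool.Agent.TH841.NF.D (Sha)

/-- the element `(1 + √-7) / 2` of the field of the seventh roots of unity -/
lemma exists_b7 : ∃ b : CyclotomicField 7 ℚ, b ^ 2 = b - 2 := by
  have hM : IsCyclotomicExtension {7} ℚ (CyclotomicField 7 ℚ) := cyc_inst 7
  have hζ := IsCyclotomicExtension.zeta_spec 7 ℚ (CyclotomicField 7 ℚ)
  obtain ⟨g, g1, g2⟩ := gauss (p := 7) (by norm_num) hζ
  have h1 : quadraticChar (ZMod 7) (-1) = -1 := by decide
  rw [h1] at g1
  push_cast at g1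
  exact ⟨(1 + g) / 2, by linear_combination g1 / 4⟩

section
variable (K : Type) [Field K] [NumberField K] [Algebra K (CyclotomicField 7 ℚ)]

theorem exists_c0 (hrat : ∀ k : K, ∃ u : ℚ, k = u) {Q P : Finset ℕ} (hQ : ∀ q ∈ Q, Inq q)
    (hP : ∀ p ∈ P, Spl p) (hdet : (mat Q P).det ≠ 0) :
    ∃ (F : Type) (_ : Field F) (_ : NumberField F) (_ : Algebra K F) (a : F) (ha : a ^ 2 = a - 2)
      (V : Set (Valuation F ℤᵐ⁰)), C0 a ha V (Q ∪ P) ∧
      (∀ x : F, ∃ k₁ k₂ : K, x = algebraMap K F k₁ + algebraMap K F k₂ * a) ∧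
      (∀ w ∈ V, (∀ x : 𝓞 F, w (algebraMap (𝓞 F) F x) ≤ 1) ∧
        ∃ x : 𝓞 F, x ≠ 0 ∧ w (algebraMap (𝓞 F) F x) < 1) ∧
      (∀ (P : HeightOneSpectrum (𝓞 F)) (p : ℕ), p.Prime → p ≠ 7 →
        P.valuation F (p : F) < 1 → P.valuation F (p : F) = exp (-1)) := by
  have hM : IsCyclotomicExtension {7} ℚ (CyclotomicField 7 ℚ) := cyc_inst 7
  obtain ⟨b, hb⟩ := exists_b7
  have hK : ∀ k : K, k ^ 2 ≠ k - 2 := by
    intro k hk
    obtain ⟨u, rfl⟩ := hrat k
    have h1 : u ^ 2 = u - 2 := by exact_mod_cast hk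
    nlinarith [sq_nonneg (2 * u - 1)]
  set F := Fx K b hb hK with hFd
  have hNF : NumberField F := inferInstance
  have hbF : b ∈ F := ⟨0, 1, by simp⟩
  have ha : (⟨b, hbF⟩ : F) ^ 2 = ⟨b, hbF⟩ - 2 := by
    apply Subtype.ext
    push_cast
    exact hb
  have hFF : ∀ x : F, ∃ k₁ k₂ : K, x = algebraMap K F k₁ + algebraMap K F k₂ * ⟨b, hbF⟩ := by
    rintro ⟨x, k₁, k₂, hx⟩
    refine ⟨k₁, k₂, ?_⟩
    apply Subtype.ext
    exact hx
  have hFQ : ∀ x : F, ∃ u v : ℚ, x = u + v * ⟨b, hbF⟩ := by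
    intro x
    obtain ⟨k₁, k₂, h⟩ := hFF x
    obtain ⟨u, rfl⟩ := hrat k₁
    obtain ⟨v, rfl⟩ := hrat k₂
    exact ⟨u, v, by rw [h, map_ratCast, map_ratCast]⟩
  have key := c0_of (M := CyclotomicField 7 ℚ) inp hQ hP hdet ha hFQ
  refine ⟨F, inferInstance, hNF, inferInstance, _, ha, _, key, hFF, ?_, ?_⟩
  · rintro w ⟨v, rfl⟩
    refine ⟨fun x => val_int F v x, ?_⟩
    obtain ⟨x, hx, hx0⟩ := (Submodule.ne_bot_iff _).1 (dnI_ne_bot F v)
    exact ⟨x, hx0, hx⟩
  · intro P p hp hp7 hP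
    have hb2 : below P = ⟨p, hp⟩ := by
      apply below_eq_of_mem F (p := ⟨p, hp⟩) P
      have e2 : (p : F) = algebraMap (𝓞 F) F ((p : ℕ) : 𝓞 F) := by
        rw [map_natCast]
      rw [e2] at hP
      exact (P.valuation_lt_one_iff_mem (K := F) _).1 hP
    exact val_unram 7 (CyclotomicField 7 ℚ) F ⟨p, hp⟩ (by
      intro hdvd
      exact hp7 ((Nat.prime_dvd_prime_iff_eq hp (by norm_num)).1 hdvd)) P hb2

/-- the Mordell-Weil group is finite -/
theorem mw_finite0 (hrat : ∀ k : K, ∃ u : ℚ, k = u) {Q P : Finset ℕ} (hQ : ∀ q ∈ Q, Inq q)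
    (hP : ∀ p ∈ P, Spl p) (hdet : (mat Q P).det ≠ 0) {j : ℕ}
    (hj : ∏ q ∈ Q ∪ P, q = 1 + 4 * j) : Finite (EX K (j : K)).toAffine.Point := by
  classical
  obtain ⟨F, _, _, _, a, ha, V, hC, -, -, -⟩ := exists_c0 K hrat hQ hP hdet
  have hfin := Pool.Agent.R428.Q0.pt_finiteD hC
  have hD0 : DD F (Q ∪ P) ≠ 0 := DD_ne fun q hq => (hC.inS q hq).1
  obtain ⟨n1, n2, n3⟩ := roots_neD ha hD0
  have hm := eA_mul ha
  have hadd := eA_add ha
  have hDF : DD F (Q ∪ P) = algebraMap K F (1 + 4 * (j : K)) := by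
    rw [DD_cast, hj, ← map_natCast (algebraMap K F)]
    congr 1
    push_cast
    ring
  set D := DD F (Q ∪ P) with hDd
  have hQ : ∀ Q : {Q : K × K // (EX K (j : K)).toAffine.Equation Q.1 Q.2},
      (Pool.Agent.H437R2.Man.MW.crv (0 : F) (-(D * eA a)) (-(D * eB a))).toAffine.Nonsingular
        (algebraMap K F (4 * Q.1.1 - 8 * (1 + 4 * (j : K)))) (algebraMap K F (8 * Q.1.2 + 4 * Q.1.1)) := by
    rintro ⟨⟨x, y⟩, h⟩
    apply Pool.Agent.H437R2.Man.MW.crv_nonsing n1 n2 n3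
    have h1 : (8 * y + 4 * x) ^ 2 = (4 * x - 8 * (1 + 4 * (j : K))) ^ 3 +
        21 * (1 + 4 * (j : K)) * (4 * x - 8 * (1 + 4 * (j : K))) ^ 2 +
        112 * (1 + 4 * (j : K)) ^ 2 * (4 * x - 8 * (1 + 4 * (j : K))) := by
      rw [WeierstrassCurve.Affine.equation_iff] at h
      unfold EX at h
      simp only at h
      linear_combination 64 * h
    have h2 : ∀ X Y Dk : K, Y ^ 2 = X ^ 3 + 21 * Dk * X ^ 2 + 112 * Dk ^ 2 * X →
        algebraMap K F Y ^ 2 = algebraMap K F X ^ 3 + 21 * algebraMap K F Dk * algebraMap K F X ^ 2 +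
          112 * algebraMap K F Dk ^ 2 * algebraMap K F X := by
      intro X Y Dk h
      have := congrArg (algebraMap K F) h
      simpa only [map_pow, map_add, map_mul, map_ofNat] using this
    have h3 := h2 _ _ _ h1
    rw [← hDF] at h3
    simp only
    rw [h3]
    linear_combination D * (algebraMap K F (4 * x - 8 * (1 + 4 * (j : K)))) ^ 2 * hadd -
      D ^ 2 * (algebraMap K F (4 * x - 8 * (1 + 4 * (j : K)))) * hm
  have hinj : Function.Injective (fun Q : {Q : K × K // (EX K (j : K)).toAffine.Equation Q.1 Q.2} =>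
      (WeierstrassCurve.Affine.Point.some _ _ (hQ Q) :
        Pool.Agent.H437R2.Man.MW.Pt (0 : F) (-(D * eA a)) (-(D * eB a)))) := by
    rintro ⟨⟨x, y⟩, h⟩ ⟨⟨x', y'⟩, h'⟩ he
    simp only [WeierstrassCurve.Affine.Point.some.injEq] at he
    obtain ⟨e1, e2⟩ := he
    have e3 := (algebraMap K F).injective e1
    have e4 := (algebraMap K F).injective e2
    have e5 : x = x' := by
      have h4 : (4 : K) ≠ 0 := by norm_num
      apply mul_left_cancel₀ h4
      linear_combination e3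
    subst e5
    have e6 : y = y' := by
      have h8 : (8 : K) ≠ 0 := by norm_num
      apply mul_left_cancel₀ h8
      linear_combination e4
    subst e6
    rfl
  have hf : Finite {Q : K × K // (EX K (j : K)).toAffine.Equation Q.1 Q.2} :=
    Finite.of_injective _ hinj
  exact Finite.of_injective _ (Pool.Agent.W189.NF.ptMap_injective (EX K (j : K)))

/-- the elements of order two of the Tate-Shafarevich group -/
theorem sha_two0 (hrat : ∀ k : K, ∃ u : ℚ, k = u) {Q P : Finset ℕ} (hQ : ∀ q ∈ Q, Inq q)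
    (hP : ∀ p ∈ P, Spl p) (hdet : (mat Q P).det ≠ 0) {j : ℕ}
    (hj : ∏ q ∈ Q ∪ P, q = 1 + 4 * j) (x : Sha (AX K j)) (hx : x + x = 0) : x = 0 := by
  have hgp : ∀ q ∈ Q ∪ P, Gp q := by
    intro q hq
    rcases Finset.mem_union.1 hq with h | h
    · exact Gp.of_inq (hQ q h)
    · exact Gp.of_spl (hP q h)
  obtain ⟨F, _, _, _, a, ha, V, hC, hF, hV, hun⟩ := exists_c0 K hrat hQ hP hdet
  refine Pool.Agent.R428.Q0.sha_twoD ha hF hC hj.symm hV (fun P hP => ?_) (fun P hP => ?_) x hx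
  · have := hun P 2 Nat.prime_two (by norm_num) (by exact_mod_cast hP)
    exact_mod_cast this
  · rw [← hj] at hP ⊢
    rcases val_prod_exp (w := P.valuation F) (fun q hq => (hgp q hq).pr) (fun q hq =>
      hun P q (hgp q hq).pr (hC.inS q hq).2.1) with h | h
    · rw [h.1] at hP
      exact absurd hP (lt_irrefl _)
    · exact h.1

/-- the 2-primary part of the Tate-Shafarevich group -/
theorem sha_pow0 (hrat : ∀ k : K, ∃ u : ℚ, k = u) {Q P : Finset ℕ} (hQ : ∀ q ∈ Q, Inq q)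
    (hP : ∀ p ∈ P, Spl p) (hdet : (mat Q P).det ≠ 0) {j : ℕ}
    (hj : ∏ q ∈ Q ∪ P, q = 1 + 4 * j) (x : Sha (AX K j)) (k : ℕ) (hx : 2 ^ k • x = 0) :
    x = 0 := by
  induction k generalizing x with
  | zero => rwa [pow_zero, one_nsmul] at hx
  | succ k ih =>
    have h1 : 2 ^ k • (x + x) = 0 := by
      rw [← two_nsmul, ← mul_nsmul', ← pow_succ]
      exact hx
    exact sha_two0 K hrat hQ hP hdet hj x (ih _ h1)

end

end Pool.Agent.R428.Q0
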