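import Pool.Agent.Y698.SG.Az
import Pool.Agent.Y698.SG.Wp
import Pool.Agent.Y698.SG.Inp
import Pool.Agent.Y21.SG.LinN

/-!
# The L-function of the twists of `X_0(49)` over a field of degree one

The case `n = 0` of `Pool/Agent/Y698/SG/Az.lean` and `Pool/Agent/Y698/SG/Ax.lean`.
-/

set_option autoImplicit false
set_option linter.unusedSectionVars false

namespace Pool.Agent.R428.Q0

open Pool.Agent.Y698 Pool.Agent.Y698.SG

open NumberField IsDedekindDomain WeierstrassCurve Pool.Agent.W189.NF IsCyclotomicExtension.Rat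
open Pool.Agent.H921R2.TatePole Pool.Agent.H82R3.EK
open H667R3 Pool.Agent.W192.HK Pool.Agent.TH936.CM Pool.Agent.TH936.PU
open W165.CE (pw pw_eq pw_luc)

/-- the data: an auxiliary prime `r`, the inert primes `Q` and the split primes `P` of `D` -/
structure DQ (r : ℕ) (Q P : Finset ℕ) : Prop where
  hr : Inq r
  hQ : ∀ q ∈ Q, Inq q ∧ q ≠ r
  hP : ∀ p ∈ P, Spl p

section
variable {r : ℕ} {Q P : Finset ℕ}

lemma DQ.gp (h : DQ r Q P) : ∀ q ∈ Q ∪ P, Gp q := by
  intro q hq
  rcases Finset.mem_union.1 hq with h1 | h1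
  · exact Gp.of_inq (h.hQ q h1).1
  · exact Gp.of_spl (h.hP q h1)

lemma DQ.ne (h : DQ r Q P) : ∀ q ∈ Q ∪ P, q ≠ r := by
  intro q hq
  rcases Finset.mem_union.1 hq with h1 | h1
  · exact (h.hQ q h1).2
  · rintro rfl
    exact h.hr.ns (h.hP q h1).sq

lemma DQ.disj (h : DQ r Q P) : Disjoint Q P :=
  disj_QP (fun q hq => (h.hQ q hq).1) h.hP

end

section
variable {r : ℕ} [hr : Fact r.Prime] (M : Type) [Field M] [NumberField M]
  [hM : IsCyclotomicExtension {r} ℚ M] (K : Type) [Field K] [NumberField K] [Algebra K M]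

include hM in
open Classical in
/-- the Euler product is the L-series of the curve -/
theorem lseries_one (hn : Module.finrank ℚ K = 2 ^ 0) {Q P : Finset ℕ} (hd : DQ r Q P) {j : ℕ}
    (hj : ∏ q ∈ Q ∪ P, q = 1 + 4 * j) {F : ℂ → ℂ}
    (g2 : ∀ z : ℂ, 3 / 2 < z.re → HasProd (fun p : Nat.Primes =>
      (1 - bc p * ((∏ q ∈ Q ∪ P, qch q (p : ℕ)) * ((p : ℕ) : ℂ) ^ (-z)) +
      ec p * ((∏ q ∈ Q ∪ P, qch q (p : ℕ)) * ((p : ℕ) : ℂ) ^ (-z)) ^ 2)⁻¹) (F z)) :
    ∀ s : ℂ, 2 < s.re → F s = (EX K (j : K)).LSeries s := by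
  have hG : IsGalois ℚ K := isGalK r K (M := M)
  have h7 : r ≠ 7 := by
    intro h
    apply hd.hr.not_seven
    rw [h]
    norm_num
  have hrS : r ∉ Q ∪ P := fun h => hd.ne r h rfl
  have hcard : Nat.card (XK r M K) = 1 := by rw [card_XK, hn, pow_zero]
  have hfin : Finite (XK r M K) := Nat.finite_of_card_ne_zero (by rw [hcard]; exact one_ne_zero)
  let _ : Fintype (XK r M K) := Fintype.ofFinite _
  have hsub : Subsingleton (XK r M K) := (Nat.card_eq_one_iff_unique.1 hcard).1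
  intro s hs
  have hs' : 3 / 2 < s.re := by linarith
  have h1 : HasProd (fun q : Nat.Primes => ∏ χ : XK r M K,
      EF (cc (χ : DirichletCharacter ℂ r) q * ∏ p ∈ Q ∪ P, qch p (q : ℕ)) s q) (F s) := by
    convert g2 s hs' using 2 with q
    rw [Fintype.prod_subsingleton _ (1 : XK r M K)]
    have e : cc ((1 : XK r M K) : DirichletCharacter ℂ r) (q : ℕ) = 1 := if_pos rfl
    rw [e, one_mul]
    rfl
  simp_rw [← prod_placesD M K h7 hd.gp hrS hj s] at h1
  have h2 := (LSeries_hasProd (EX K (j : K)) hs).2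
  have h3 := (Equiv.sigmaFiberEquiv (below (K := K))).hasProd_iff.2 h2
  have h4 := h3.sigma (g := fun q : Nat.Primes =>
    ∏ v : {v : HeightOneSpectrum (𝓞 K) // below v = q}, LFD j s v.1) (fun q => hasProd_fintype _)
  exact h1.unique h4

end

end Pool.Agent.R428.Q0
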