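import Pool.Agent.Y698.SG.Lp

/-!
# The global classes for the twists over a field of degree one

After `Pool/Agent/Y698/SG/Lp.lean`, with the trivial Galois group.
-/

set_option autoImplicit false
set_option linter.unusedSectionVars false

open WithZero

namespace Pool.Agent.R428.Q0

open Pool.Agent.Y698 Pool.Agent.Y698.SG

variable {F : Type*} [Field F] [CharZero F] {a : F} (ha : a ^ 2 = a - 2)

section
variable {V : Set (Valuation F ℤᵐ⁰)}

/-- the classes with even valuations outside of `7` -/
theorem classes1 (hB : Big a ha 1 V) :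
    ∀ g : RR, g ≠ 0 → EvO V 1 (ev a ha g) →
      SqE (ev a ha g) 1 ∨ SqE (ev a ha g) (-1) ∨ SqE (ev a ha g) (2 * a - 1) ∨
        SqE (ev a ha g) (-(2 * a - 1)) := by
  have hs : ev a ha fR = 2 * a - 1 := by
    unfold fR
    rw [map_sub, map_mul, map_ofNat, ev_aR, map_one]
  have key : ∀ (N : ℕ) (g : RR), (nR g).toNat ≤ N → g ≠ 0 → EvO V 1 (ev a ha g) →
      SqE (ev a ha g) 1 ∨ SqE (ev a ha g) (-1) ∨ SqE (ev a ha g) (2 * a - 1) ∨
        SqE (ev a ha g) (-(2 * a - 1)) := by
    intro N
    induction N with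
    | zero =>
      intro g hg hg0
      have := nR_pos hg0
      omega
    | succ N ih =>
      intro g hg hg0 hev
      by_cases hu : IsUnit g
      · rcases isUnit_iff.1 hu with rfl | rfl
        · left; rw [map_one]; exact SqE.refl _
        · right; left; rw [map_neg, map_one]; exact SqE.refl _
      obtain ⟨π, hπirr, g', rfl⟩ := WfDvdMonoid.exists_irreducible_factor hu hg0
      have hπ : Prime π := hπirr.prime
      have hg'0 : g' ≠ 0 := right_ne_zero_of_mul hg0
      have hNπ : 2 ≤ nR π := by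
        have h1 := nR_pos hπ.ne_zero
        by_contra h2
        have h3 : nR π = 1 := by omega
        apply hπ.not_isUnit
        refine IsUnit.of_mul_eq_one (cj π) ?_
        rw [mul_cj, h3]
        norm_num
      have hlt : (nR g').toNat ≤ N := by
        rw [nR_mul] at hg
        have h1 := nR_pos hg'0
        have h2 : 2 * nR g' ≤ nR π * nR g' := by nlinarith
        omega
      -- squares
      by_cases hdv : π ∣ g'
      · obtain ⟨g'', rfl⟩ := hdv
        have hg''0 : g'' ≠ 0 := right_ne_zero_of_mul hg'0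
        have hlt' : (nR g'').toNat ≤ N := by
          rw [nR_mul] at hlt
          have h1 := nR_pos hg''0
          have h2 : nR g'' ≤ nR π * nR g'' := by nlinarith
          omega
        have hsq : SqE (ev a ha (π * (π * g''))) (ev a ha g'') :=
          ⟨ev a ha π, ev_ne ha hπ.ne_zero, by rw [map_mul, map_mul]; ring⟩
        rcases ih g'' hlt' hg''0 (hev.sqE hsq.symm) with h | h | h | h
        · exact Or.inl (hsq.trans h)
        · exact Or.inr (Or.inl (hsq.trans h))
        · exact Or.inr (Or.inr (Or.inl (hsq.trans h)))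
        · exact Or.inr (Or.inr (Or.inr (hsq.trans h)))
      · -- `π` divides `7`
        by_cases h7 : π ∣ (7 : RR)
        · -- `π = ± √-7`
          have h8 : π ∣ fR := by
            have h9 : π ∣ fR ^ 2 := by
              rw [fR_sq]
              exact (dvd_neg).2 h7
            exact hπ.dvd_of_dvd_pow h9
          have h10 : Associated π fR := hπirr.associated_of_dvd prime_fR.irreducible h8
          obtain ⟨u, hu'⟩ := h10
          have hu2 := isUnit_iff.1 u.isUnit
          have hπs : ev a ha π = 2 * a - 1 ∨ ev a ha π = -(2 * a - 1) := by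
            have h11 : ev a ha π * ev a ha (u : RR) = 2 * a - 1 := by rw [← map_mul, hu', hs]
            rcases hu2 with h | h
            · rw [h, map_one, mul_one] at h11
              exact Or.inl h11
            · rw [h, map_neg, map_one] at h11
              right
              linear_combination -h11
          have hev' : EvO V 1 (ev a ha g') := by
            intro w hw hw7 hwr
            obtain ⟨z, hz, h12⟩ := hev w hw hw7 hwr
            refine ⟨z, hz, ?_⟩
            rw [← h12, map_mul, map_mul]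
            have h13 : w (ev a ha π) = 1 := by
              have h14 : w (2 * a - 1) = 1 := by
                have h3 : w (2 * a - 1) ^ 2 = 1 := by
                  rw [← map_pow, s_sq ha, Valuation.map_neg, hw7]
                exact (pow_eq_one_iff_of_nonneg zero_le two_ne_zero).1 h3
              rcases hπs with h | h
              · rw [h, h14]
              · rw [h, Valuation.map_neg, h14]
            rw [h13, one_mul]
          have hss : SqE ((2 * a - 1) * (2 * a - 1)) 1 := SqE.sq (s_ne ha)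
          have hmm : ∀ {x : F}, SqE x 1 → SqE (-x) (-1) := by
            rintro x ⟨z, hz, h⟩
            exact ⟨z, hz, by rw [h]; ring⟩
          rcases ih g' hlt hg'0 hev' with h | h | h | h <;> rcases hπs with h' | h' <;>
            rw [map_mul, h']
          · right; right; left
            have := (SqE.refl (2 * a - 1)).mul h
            rwa [mul_one] at this
          · right; right; right
            have := (SqE.refl (-(2 * a - 1))).mul h
            rwa [mul_one] at this
          · right; right; right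
            have := (SqE.refl (2 * a - 1)).mul h
            rwa [mul_neg_one] at this
          · right; right; left
            have := (SqE.refl (-(2 * a - 1))).mul h
            rwa [mul_neg_one, neg_neg] at this
          · left
            exact ((SqE.refl (2 * a - 1)).mul h).trans hss
          · right; left
            have := ((SqE.refl (-(2 * a - 1))).mul h)
            rw [neg_mul (2 * a - 1) (2 * a - 1)] at this
            exact this.trans (hmm hss)
          · right; left
            have := ((SqE.refl (2 * a - 1)).mul h)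
            rw [mul_neg] at this
            exact this.trans (hmm hss)
          · left
            have := ((SqE.refl (-(2 * a - 1))).mul h)
            rw [neg_mul_neg] at this
            exact this.trans hss
        by_cases hpr : π ∣ ((1 : ℕ) : RR)
        · exfalso
          rw [Nat.cast_one] at hpr
          exact hπ.not_isUnit (isUnit_of_dvd_one hpr)
        · exfalso
          obtain ⟨w, hw, hw7, hwr, hwπ, hund⟩ := exists_val ha hB hπ h7 hpr
          obtain ⟨z, hz, h12⟩ := hev w hw hw7 hwr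
          have h13 : w (ev a ha g') = 1 :=
            le_antisymm (w_ev ha w g') (not_lt.1 (fun h => hdv ((hund g').1 h)))
          rw [map_mul, map_mul, hwπ, h13, mul_one] at h12
          obtain ⟨m, hm⟩ := vexp (w := w) hz
          rw [hm, ← exp_nsmul, exp_inj] at h12
          simp only [nsmul_eq_mul, Nat.cast_ofNat] at h12
          omega
  exact fun g hg hev => key _ g le_rfl hg hev

end

/-- the data for the twists over a field of degree one -/
structure C0 (a : F) (ha : a ^ 2 = a - 2) (V : Set (Valuation F ℤᵐ⁰)) (S : Finset ℕ) : Prop where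
  big : Big a ha 1 V
  rat : ∀ x : F, ∃ u v : ℚ, x = u + v * a
  w7 : ∃ (w : Valuation F ℤᵐ⁰) (k : ℤ), w (2 * a - 1) = exp (2 * k + 1)
  inS : ∀ q ∈ S, q.Prime ∧ q ≠ 7 ∧ q % 4 = 1
  fam : ∃ (I : Finset (ℕ × Bool)) (π : ℕ × Bool → RR), (∀ i ∈ I, Prime (π i)) ∧
    (∀ i ∈ I, ∃ u : RR, π i = 1 + 4 * u) ∧ ∏ i ∈ I, π i = ((∏ q ∈ S, q : ℕ) : RR) ∧
    ∀ (b : F) (hb : b ^ 2 = b - 2), FinP b hb V S I π

variable {V : Set (Valuation F ℤᵐ⁰)} {S : Finset ℕ}

variable {ha}

lemma C0.w_DD (hC : C0 a ha V S) {w : Valuation F ℤᵐ⁰} {p : ℕ} (hp : p.Prime)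
    (hpS : p ∉ S) (hw : w (p : F) < 1) : w (DD F S) = 1 := by
  unfold DD
  refine w_prod_one fun q hq => w_nat_one ?_ hw
  exact (Nat.coprime_primes (hC.inS q hq).1 hp).2 (fun h => hpS (h ▸ hq))

lemma C0.two_notin (hC : C0 a ha V S) : 2 ∉ S := fun h => by
  have := (hC.inS 2 h).2.2
  omega

lemma C0.seven_notin (hC : C0 a ha V S) : 7 ∉ S := fun h => by
  exact (hC.inS 7 h).2.1 rfl

/-- the valuation of `D` -/
lemma C0.w_DD_exp (hC : C0 a ha V S) {w : Valuation F ℤᵐ⁰} (hw : w ∈ V)
    (h : w (DD F S) < 1) : w (DD F S) = exp (-1) := by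
  obtain ⟨q, hq, hlt⟩ : ∃ q ∈ S, w (q : F) < 1 := by
    by_contra hcon
    push Not at hcon
    have : w (DD F S) = 1 := w_prod_one fun q hq => le_antisymm (w_nat q) (hcon q hq)
    rw [this] at h
    exact lt_irrefl _ h
  obtain ⟨h1, h3, h5⟩ := hC.inS q hq
  have h6 := hC.big.un w hw q h1 h3 h1.ne_one hlt
  unfold DD
  rw [← Finset.mul_prod_erase S _ hq, map_mul, h6]
  have h7 : w (∏ p ∈ S.erase q, (p : F)) = 1 := by
    refine w_prod_one fun p hp => w_nat_one ?_ hlt
    exact (Nat.coprime_primes (hC.inS p (Finset.mem_of_mem_erase hp)).1 h1).2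
      (Finset.ne_of_mem_erase hp)
  rw [h7, mul_one]

lemma C0.w_DD_sub (hC : C0 a ha V S) (w : Valuation F ℤᵐ⁰) : w (DD F S - 1) ≤ w 4 := by
  rw [DD_cast]
  exact w_one_sub (prod_mod_four fun q hq => (hC.inS q hq).2.2)

/-- the classes of the elements of `R` -/
lemma C0.low (hC : C0 a ha V S) {g : RR} (hg0 : g ≠ 0)
    (hEv : ∀ w ∈ V, w (7 : F) = 1 → w (DD F S) = 1 → Ev w (ev a ha g))
    (hUr : ∀ w ∈ V, w (7 : F) = 1 → w (DD F S) = 1 → w (1 - a) < 1 → Ur w (ev a ha g))
    (hSq : ∀ w ∈ V, w 7 = 1 → w (DD F S) < 1 → Sq w (ev a ha g) ∨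
      Sq w (DD F S * (2 * a - 1) * (ev a ha g))) : SDD a (DD F S) (ev a ha g) := by
  have hs0 := s_ne ha
  obtain ⟨I, π, hI1, hI2, hI3, hI4⟩ := hC.fam
  have hprod := fam_DD (a := a) (ha := ha) hI3
  have hDD0 : DD F S ≠ 0 := DD_ne fun q hq => (hC.inS q hq).1
  have hne : ∀ i ∈ I, ev a ha (π i) ≠ 0 := by
    rw [← hprod, Finset.prod_ne_zero_iff] at hDD0
    exact hDD0
  obtain ⟨T, hT, hT'⟩ := classes_set' (V := V) (r := 1) ha I π (fun i hi => ⟨hI1 i hi, hne i hi⟩)
    g hg0 (by
      intro w hw h7 hr hq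
      refine hEv w hw h7 ?_
      rw [← hprod, map_prod]
      exact Finset.prod_eq_one hq)
  have hPR : (∏ i ∈ T, π i) ≠ 0 := by
    rw [Finset.prod_ne_zero_iff]
    intro q hq
    exact (hI1 q (hT hq)).ne_zero
  have hPF : (∏ i ∈ T, ev a ha (π i)) ≠ 0 := by
    rw [Finset.prod_ne_zero_iff]
    exact fun i hi => hne i (hT hi)
  have hev : ev a ha (g * ∏ i ∈ T, π i) = ev a ha g * ∏ i ∈ T, ev a ha (π i) := by
    rw [map_mul, map_prod]
  -- a place above `ā`
  obtain ⟨w', hw'V, hw'1⟩ := hC.big.ex (1 - aR) (by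
    intro hu
    rcases isUnit_iff.1 hu with h | h
    · have h1 : aR = 0 := by linear_combination -h
      have h2 := cXY_aR.2
      rw [h1, cXY_zero.2] at h2
      norm_num at h2
    · have h1 : aR = ((2 : ℤ) : RR) := by push_cast; linear_combination -h
      have h2 := cXY_aR.2
      rw [h1, (cXY_int 2).2] at h2
      norm_num at h2)
  rw [map_sub, map_one, ev_aR] at hw'1
  have hw'2 := two_lt ha hw'1
  have hw'2e : w' 2 = exp (-1) := by
    have := hC.big.un w' hw'V 2 Nat.prime_two (by norm_num) (by norm_num)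
      (by exact_mod_cast hw'2)
    exact_mod_cast this
  have hw'7 : w' 7 = 1 := by
    have e : (7 : F) = 1 + 2 * 3 := by norm_num
    rw [e, Valuation.map_add_eq_of_lt_left w', map_one]
    rw [map_one, map_mul]
    exact mul_lt_one_of_lt_of_le hw'2 (by exact_mod_cast w_nat (w := w') 3)
  have hw'D : w' (DD F S) = 1 :=
    hC.w_DD Nat.prime_two hC.two_notin (by exact_mod_cast hw'2)
  have hUg0 := hUr w' hw'V hw'7 hw'D hw'1
  have hUg : Ur w' (ev a ha (g * ∏ i ∈ T, π i)) := by
    rw [hev]
    exact hUg0.mul hw'2 (ur_prod' ha hw'2 T π fun i hi => hI2 i (hT hi))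
  have hw'a : w' a = 1 := by
    by_contra h1
    have h2 : w' a < 1 := lt_of_le_of_ne (wa_le ha) h1
    have h3 : w' (a + (1 - a)) < 1 := Valuation.map_add_lt w' h2 hw'1
    rw [add_sub_cancel, map_one] at h3
    exact lt_irrefl _ h3
  have hUs : Ur w' (2 * a - 1) := by
    refine ⟨1, one_ne_zero, ?_⟩
    have e : (2 * a - 1 - 1 ^ 2 : F) = -(2 * (1 - a)) := by ring
    have hb : w' (1 - a) = w' 2 := by
      have := congrArg w' (ab_eq ha)
      rwa [map_mul, hw'a, one_mul] at this
    rw [e, Valuation.map_neg, map_mul, hb, map_one, one_pow, mul_one, w_four, sq]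
  have hnot := not_ur_neg_one (w := w') hw'2e
  have hback : ∀ t : F, SqE (ev a ha (g * ∏ i ∈ T, π i)) t →
      SqE (ev a ha g) (t * ∏ i ∈ T, ev a ha (π i)) := by
    rintro t ⟨z, hz, h⟩
    rw [hev] at h
    refine ⟨z / ∏ i ∈ T, ev a ha (π i), div_ne_zero hz hPF, ?_⟩
    field_simp
    linear_combination h
  rcases classes1 ha hC.big _ (mul_ne_zero hg0 hPR) hT' with h | h | h | h
  · exact hI4 a ha _ T false hT (by simpa using hback _ h) hSq
  · exact absurd (hUg.sqE hw'2 h.symm) hnot
  · exact hI4 a ha _ T true hT (by simpa using hback _ h) hSq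
  · exfalso
    have h1 : Ur w' (-(2 * a - 1)) := hUg.sqE hw'2 h.symm
    have h2 := hUs.mul hw'2 h1
    refine hnot (h2.sqE hw'2 ⟨(2 * a - 1)⁻¹, inv_ne_zero (s_ne ha), ?_⟩)
    field_simp

theorem C0.main (hC : C0 a ha V S) {d : F} (hd : PDD (1 : F ≃+* F) a (DD F S) V d) :
    SDD a (DD F S) d := by
  obtain ⟨u, v, huv⟩ := hC.rat d
  obtain ⟨g, hg⟩ := exists_RR ha u v
  rw [← huv] at hg
  have hdg : SqE d (ev a ha g) := hg
  have hd0 := hd.1
  have hg0 : g ≠ 0 := by
    rintro rfl
    obtain ⟨z', -, h'⟩ := hdg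
    rw [map_zero, zero_mul] at h'
    exact hd0 h'
  have hfin := hC.low hg0 (fun w hw h7 hD => ((hd.2 0 w hw h7).1 hD).1.sqE hdg.symm)
    (fun w hw h7 hD h1 => (((hd.2 0 w hw h7).1 hD).2 h1).sqE (two_lt ha h1) hdg.symm)
    (fun w hw h7 hD => by
      rcases (hd.2 0 w hw h7).2 hD with h1 | h1
      · exact Or.inl (h1.sqE hdg.symm)
      · exact Or.inr (h1.sqE ((SqE.refl _).mul hdg.symm)))
  rcases hfin with h1 | h1
  · exact Or.inl (hdg.trans h1)
  · exact Or.inr (hdg.trans h1)

/-- the conjugate data -/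
lemma C0.conj (hC : C0 a ha V S) : C0 (1 - a) (ha_conj ha) V S := by
  have hev : ∀ g : RR, ev (1 - a) (ha_conj ha) g = ev a ha (cj g) := by
    intro g
    unfold cj
    rw [ev_apply, ev_apply (1 - aR), map_add, map_mul, map_intCast, map_intCast, map_sub, map_one,
      ev_aR]
  refine ⟨⟨fun g hg => ?_, hC.big.un⟩, fun x => ?_, ?_, hC.inS, hC.fam⟩
  · obtain ⟨w, hw, h⟩ := hC.big.ex (cj g) (by
      intro h
      apply hg
      have h1 := h.map cj
      rwa [cj_cj] at h1)
    exact ⟨w, hw, by rw [hev]; exact h⟩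
  · obtain ⟨u, v, h⟩ := hC.rat x
    exact ⟨u + v, -v, by rw [h]; push_cast; ring⟩
  · obtain ⟨w, k, hk⟩ := hC.w7
    refine ⟨w, k, ?_⟩
    rw [← hk, ← Valuation.map_neg]
    congr 1
    ring

/-- an odd valuation -/
lemma C0.w7s (hC : C0 a ha V S) :
    ∃ (v : Valuation F ℤᵐ⁰) (k : ℤ), v (DD F S * (2 * a - 1)) = exp (2 * k + 1) := by
  obtain ⟨w, k, hk⟩ := hC.w7
  have hw7 : w ((7 : ℕ) : F) < 1 := by
    have h1 : w ((7 : ℕ) : F) = exp (2 * (2 * k + 1)) := by
      have h2 : ((7 : ℕ) : F) = -((2 * a - 1) ^ 2) := by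
        rw [s_sq ha]
        norm_num
      rw [h2, Valuation.map_neg, map_pow, hk, ← exp_nsmul]
      congr 1
    have h3 := w_nat (w := w) 7
    rw [h1, ← exp_zero, exp_le_exp] at h3
    rw [h1, ← exp_zero, exp_lt_exp]
    omega
  have hwD : w (DD F S) = 1 := hC.w_DD (by norm_num) hC.seven_notin hw7
  exact ⟨w, k, by rw [map_mul, hwD, one_mul, hk]⟩

end Pool.Agent.R428.Q0
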