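import Pool.Agent.R428.Q0.Cy
import Pool.Agent.Y698.SG.Cl
import Pool.Agent.Y698.SG.Inp

/-!
# The data of the descent for the twists over `ℚ`
-/

set_option autoImplicit false
set_option linter.unusedSectionVars false

namespace Pool.Agent.R428.Q0

open Pool.Agent.Y698 Pool.Agent.Y698.SG
open NumberField IsDedekindDomain Ideal IsCyclotomicExtension.Rat WithZero
open Pool.Agent.H921R2.TatePole Pool.Agent.H82R3.EK
open Pool.Agent.W192.HK (sp)

section
variable {M : Type} [Field M] [NumberField M] [hM : IsCyclotomicExtension {7} ℚ M]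
  {F : Type} [Field F] [NumberField F] [Algebra F M]

include hM in
/-- the valuations of `F`, and `√-7` -/
theorem big0 {a : F} (ha : a ^ 2 = a - 2) : Big a ha 1 (VV F M) ∧
    ∃ (w : Valuation F ℤᵐ⁰) (k : ℤ), w (2 * a - 1) = exp (2 * k + 1) := by
  obtain ⟨v7, hv7⟩ := exists_place (M := M) ⟨7, by norm_num⟩
  have hv7' : (below v7 : ℕ) = 7 := by rw [hv7]
  have hval7 : v7.valuation M ((7 : ℕ) : M) = exp (-((6 : ℕ) : ℤ)) := by
    refine val_ram ⟨7, by norm_num⟩ v7 hv7 ?_
    have hmem : (((7 : ℕ) : ℕ) : 𝓞 M) ∈ v7.asIdeal := by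
      have := (nm_eq v7).2.2
      rwa [hv7'] at this
    have hl := liesOver_of_mem M (by norm_num : Nat.Prime 7) v7 hmem
    have hvp := v7.isPrime
    have h7f : Fact (Nat.Prime 7) := ⟨by norm_num⟩
    have h1 := ramificationIdx_eq (p := 7) (m := 1) (k := 0) 7 M v7.asIdeal (by norm_num)
      (by norm_num)
    rw [h1]
    norm_num
  refine ⟨⟨?_, ?_⟩, ?_⟩
  · -- enough valuations
    intro g hg
    by_cases hg0 : g = 0
    · subst hg0
      refine ⟨(v7.valuation M).comap (algebraMap F M), ⟨v7, rfl⟩, ?_⟩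
      rw [map_zero, map_zero]
      exact zero_lt_one
    · have h1 : ¬ IsIntegral ℤ (ev a ha g)⁻¹ := fun h => hg (unit_of_inv ha hg0 h)
      have h2 : ¬ IsIntegral ℤ (algebraMap F M (ev a ha g)⁻¹) := fun h =>
        h1 ((isIntegral_algebraMap_iff (algebraMap F M).injective).1 h)
      have h3 : ∃ v : HeightOneSpectrum (𝓞 M), 1 < v.valuation M (algebraMap F M (ev a ha g)⁻¹) := by
        by_contra hcon
        push Not at hcon
        obtain ⟨y, hy⟩ := HeightOneSpectrum.mem_integers_of_valuation_le_one M _ hcon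
        apply h2
        rw [← hy]
        exact y.2
      obtain ⟨v, hv⟩ := h3
      refine ⟨(v.valuation M).comap (algebraMap F M), ⟨v, rfl⟩, ?_⟩
      rw [map_inv₀, map_inv₀] at hv
      have hne : v.valuation M (algebraMap F M (ev a ha g)) ≠ 0 := by
        rw [Valuation.ne_zero_iff, Ne, map_eq_zero]
        exact ev_ne ha hg0
      exact (one_lt_inv₀ (zero_lt_iff.2 hne)).1 hv
  · -- unramified outside of `7`
    rintro w ⟨v, rfl⟩ p hp hp7 hpr hlt
    have e : (((v.valuation M).comap (algebraMap F M)) (p : F)) = v.valuation M (p : M) := by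
      rw [Valuation.comap_apply, map_natCast]
    rw [e] at hlt ⊢
    have hb : below v = ⟨p, hp⟩ := by
      apply below_eq_of_mem M (p := ⟨p, hp⟩) v
      have e2 : (p : M) = algebraMap (𝓞 M) M (p : 𝓞 M) := (map_natCast _ _).symm
      rw [e2] at hlt
      exact (v.valuation_lt_one_iff_mem (K := M) _).1 hlt
    refine val_unram 7 M M ⟨p, hp⟩ ?_ v hb
    intro hdvd
    exact hp7 ((Nat.prime_dvd_prime_iff_eq hp (by norm_num)).1 hdvd)
  · refine ⟨(v7.valuation M).comap (algebraMap F M), -2, ?_⟩
    rw [Valuation.comap_apply]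
    have h2 : (algebraMap F M (2 * a - 1)) ^ 2 = -((7 : ℕ) : M) := by
      rw [← map_pow]
      have : (2 * a - 1) ^ 2 = -((7 : ℕ) : F) := by
        push_cast
        linear_combination 4 * ha
      rw [this, map_neg, map_natCast]
    have h3 := congrArg (v7.valuation M) h2
    rw [map_pow, Valuation.map_neg, hval7] at h3
    have h4 : v7.valuation M (algebraMap F M (2 * a - 1)) ≠ 0 := by
      intro h0
      rw [h0] at h3
      exact exp_ne_zero h3.symm
    obtain ⟨e, he⟩ : ∃ e : ℤ, v7.valuation M (algebraMap F M (2 * a - 1)) = exp e :=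
      ⟨log _, (exp_log h4).symm⟩
    rw [he, ← exp_nsmul, exp_inj] at h3
    simp only [nsmul_eq_mul] at h3
    push_cast at h3
    rw [he, exp_inj]
    omega

include hM in
lemma Big.all {a : F} {ha : a ^ 2 = a - 2} (b : F) (hb : b ^ 2 = b - 2) : Big b hb 1 (VV F M) :=
  (big0 hb).1

/-- the Frobenius element is trivial on `ℚ(√-7)` -/
theorem frob_fix {p : ℕ} (hp : Spl p) {φ : Gal(M/ℚ)} (v : HeightOneSpectrum (𝓞 M))
    (hv : (p : 𝓞 M) ∈ v.asIdeal) (hcong : ∀ y : 𝓞 M, φ • y - y ^ p ∈ v.asIdeal)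
    (b : M) (hb : b ^ 2 = b - 2) : φ b = b := by
  have hfact : Fact p.Prime := ⟨hp.pr⟩
  set w := v.valuation M with hw
  have hwp : w (p : M) < 1 := by
    have e : (p : M) = algebraMap (𝓞 M) M (p : 𝓞 M) := (map_natCast _ _).symm
    rw [e]
    exact (v.valuation_lt_one_iff_mem (K := M) _).2 hv
  have hp7 : p ≠ 7 := by
    rintro rfl
    have := hp.m4
    norm_num at this
  have hw7 : w (7 : M) = 1 := by
    have := w_nat_one (w := w) ((Nat.coprime_primes (by norm_num) hp.pr).2 hp7.symm : Nat.Coprime 7 p) hwp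
    exact_mod_cast this
  have hw2 : w (2 : M) = 1 := by
    have := w_nat_one (w := w) ((Nat.coprime_primes Nat.prime_two hp.pr).2
      (by rintro rfl; exact absurd hp.m4 (by norm_num)) : Nat.Coprime 2 p) hwp
    exact_mod_cast this
  set c : M := 2 * b - 1 with hc
  have hc2 : c ^ 2 = -7 := by rw [hc]; linear_combination 4 * hb
  have hc1 : w c = 1 := by
    have h3 : w c ^ 2 = 1 := by rw [← map_pow, hc2, Valuation.map_neg, hw7]
    exact (pow_eq_one_iff_of_nonneg zero_le two_ne_zero).1 h3
  have hφc : φ c = c ∨ φ c = -c := by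
    have h1 : (φ c) ^ 2 = c ^ 2 := by rw [← map_pow, hc2, map_neg, map_ofNat]
    exact sq_eq_sq_iff_eq_or_eq_neg.1 h1
  -- an integer congruent to `c`
  obtain ⟨s, hs⟩ : ∃ s : ℤ, w (c - s) < 1 := by
    obtain ⟨t, ht⟩ := hp.sq
    obtain ⟨t, rfl⟩ := ZMod.intCast_surjective t
    have h1 : (p : ℤ) ∣ -7 - t * t := by
      rw [← ZMod.intCast_zmod_eq_zero_iff_dvd]
      push_cast
      rw [ht]
      ring
    obtain ⟨u, hu⟩ := h1
    have h2 : w ((c - t) * (c + t)) < 1 := by
      have h3 := congrArg (Int.cast : ℤ → M) hu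
      push_cast at h3
      have e : (c - t) * (c + t) = (p : M) * u := by rw [← h3]; linear_combination hc2
      rw [e, map_mul]
      exact mul_lt_one_of_lt_of_le hwp (w_int u)
    by_cases h3 : w (c - t) < 1
    · exact ⟨t, h3⟩
    · refine ⟨-t, ?_⟩
      push_cast
      rw [sub_neg_eq_add]
      have h4 : w (c - t) = 1 :=
        le_antisymm (Valuation.map_sub_le w hc1.le (w_int t)) (not_lt.1 h3)
      rw [map_mul, h4, one_mul] at h2
      exact h2
  have h1 : w (c ^ p - (s : M) ^ p) < 1 := pow_sub_val' hc1.le (w_int s) hs p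
  have h2 : w ((s : M) ^ p - s) < 1 := by
    have h3 : (p : ℤ) ∣ s ^ p - s := by
      rw [← ZMod.intCast_zmod_eq_zero_iff_dvd]
      push_cast
      rw [ZMod.pow_card, sub_self]
    obtain ⟨u, hu⟩ := h3
    have h4 := congrArg (Int.cast : ℤ → M) hu
    push_cast at h4
    rw [h4, map_mul]
    exact mul_lt_one_of_lt_of_le hwp (w_int u)
  have h3 := frob_val v (φ := φ) (Q := p) hp.pr.ne_zero hcong (x := c) hc1.le
  have h4 : w (φ c - c) < 1 := by
    have e : φ c - c = (φ c - c ^ p) + (c ^ p - (s : M) ^ p) + ((s : M) ^ p - s) - (c - s) := by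
      ring
    rw [e]
    exact Valuation.map_sub_lt w (Valuation.map_add_lt w (Valuation.map_add_lt w h3 h1) h2) hs
  have h5 : φ c = c := by
    refine hφc.resolve_right fun h5 => ?_
    rw [h5] at h4
    have e : -c - c = -(2 * c) := by ring
    rw [e, Valuation.map_neg, map_mul, hw2, hc1, one_mul] at h4
    exact lt_irrefl _ h4
  rw [hc, map_sub, map_mul, map_one, map_ofNat] at h5
  have h20 : (2 : M) ≠ 0 := two_ne_zero
  apply mul_left_cancel₀ h20
  linear_combination h5

/-- the square of an automorphism is trivial on `ℚ(√-7)` -/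
theorem frob_fix2 {φ : Gal(M/ℚ)} (b : M) (hb : b ^ 2 = b - 2) : (φ * φ) b = b := by
  have h1 : (φ b) ^ 2 = φ b - 2 := by rw [← map_pow, hb, map_sub, map_ofNat]
  have h2 : (φ b - b) * (φ b + b - 1) = 0 := by linear_combination h1 - hb
  rw [AlgEquiv.mul_apply]
  rcases mul_eq_zero.1 h2 with h3 | h3
  · have h4 : φ b = b := by linear_combination h3
    rw [h4, h4]
  · have h4 : φ b = 1 - b := by linear_combination h3
    rw [h4, map_sub, map_one, h4]
    ring

include hM in
theorem c0_of (hI : Inp) {Q P : Finset ℕ} (hQ : ∀ q ∈ Q, Inq q) (hP : ∀ p ∈ P, Spl p)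
    (hdet : (mat Q P).det ≠ 0) {a : F} (ha : a ^ 2 = a - 2)
    (hF : ∀ x : F, ∃ u v : ℚ, x = u + v * a) : C0 a ha (VV F M) (Q ∪ P) := by
  have hgp : ∀ q ∈ Q ∪ P, Gp q := by
    intro q hq
    rcases Finset.mem_union.1 hq with h | h
    · exact Gp.of_inq (hQ q h)
    · exact Gp.of_spl (hP q h)
  have hq7 : ∀ q ∈ Q ∪ P, q ≠ 7 := by
    intro q hq h
    have := (hgp q hq).m4
    rw [h] at this
    norm_num at this
  obtain ⟨hbig, hw7⟩ := big0 (M := M) ha
  refine ⟨hbig, hF, hw7, ?_, ?_⟩
  · intro q hq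
    exact ⟨(hgp q hq).pr, hq7 q hq, (hgp q hq).m4⟩
  · obtain ⟨ϖ, hc⟩ := exists_cho hI.pi hP
    have hfam := fam hI.pd1 hI.pd2 hQ hP hc
    refine ⟨ix Q P, pf Q ϖ, fun i hi => (hfam.pd i hi).pr, fun i hi => (hfam.pd i hi).m4,
      prod_pf hQ hP hc, fun b hb => ?_⟩
    refine finP_of hb hfam (prod_pf hQ hP hc) ?_
      (hI.ns2 Q P _ _ (sym_dr hI.pd1 hI.pd2 hQ hP hc) (by
        rw [xm_dr hI.pd1 hI.rc hQ hP hc]
        exact hdet))
    intro i hi
    have hpi := (hfam.pd i hi).pr
    obtain ⟨w, hw, hlt⟩ := (big0 (M := M) hb).1.ex (pf Q ϖ i) hpi.not_isUnit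
    obtain ⟨v, rfl⟩ := hw
    set q : ℕ := i.1 with hqdef
    have hqS : q ∈ Q ∪ P := by
      rcases mem_ix.1 hi with ⟨-, h⟩ | h
      · exact Finset.mem_union_left _ h
      · exact Finset.mem_union_right _ h
    have hqp := (hgp q hqS).pr
    have hqf : Fact q.Prime := ⟨hqp⟩
    have hnorm := nR_pf hQ hP hc hi
    -- the place lies above `q`
    have hwq2 : ((v.valuation M).comap (algebraMap F M)) ((q : F) ^ 2) < 1 := by
      have h1 : pf Q ϖ i ∣ ((q : ℕ) : RR) ^ 2 := by
        have h2 := mul_cj (pf Q ϖ i)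
        rcases hnorm with ⟨-, h3⟩ | ⟨-, h3⟩
        · rw [h3] at h2
          refine ⟨cj (pf Q ϖ i), ?_⟩
          rw [h2]
          push_cast
          rfl
        · rw [h3] at h2
          refine ⟨cj (pf Q ϖ i) * ((q : ℕ) : RR), ?_⟩
          rw [← mul_assoc, h2, pow_two]
          congr 1
      have h2 := (undr_eq hb hpi hlt (((q : ℕ) : RR) ^ 2)).2 h1
      rw [map_pow, map_natCast] at h2
      exact h2
    have hwq : ((v.valuation M).comap (algebraMap F M)) (q : F) < 1 := by
      rw [map_pow] at hwq2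
      by_contra hcon
      have h1 : ((v.valuation M).comap (algebraMap F M)) (q : F) = 1 :=
        le_antisymm (w_nat q) (not_lt.1 hcon)
      rw [h1, one_pow] at hwq2
      exact lt_irrefl _ hwq2
    have hmem : (q : 𝓞 M) ∈ v.asIdeal := by
      rw [Valuation.comap_apply, map_natCast] at hwq
      have e : (q : M) = algebraMap (𝓞 M) M (q : 𝓞 M) := (map_natCast _ _).symm
      rw [e] at hwq
      exact (v.valuation_lt_one_iff_mem (K := M) _).1 hwq
    have hw7 : ((v.valuation M).comap (algebraMap F M)) (7 : F) = 1 := by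
      have := w_nat_one (w := (v.valuation M).comap (algebraMap F M))
        ((Nat.coprime_primes (by norm_num) hqp).2 (hq7 q hqS).symm : Nat.Coprime 7 q) hwq
      exact_mod_cast this
    have hwq1 : ((v.valuation M).comap (algebraMap F M)) (q : F) = exp (-1) :=
      hbig.un _ ⟨v, rfl⟩ q hqp (hq7 q hqS) hqp.ne_one hwq
    have hcop : Nat.Coprime q 7 := (Nat.coprime_primes hqp (by norm_num)).2 (hq7 q hqS)
    set φ : Gal(M/ℚ) := (galEquivZMod 7 M).symm (ZMod.unitOfCoprime q hcop) with hφd
    have hφ : ((galEquivZMod 7 M φ : (ZMod 7)ˣ) : ZMod 7) = (q : ℕ) := by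
      rw [hφd, MulEquiv.apply_symm_apply, ZMod.coe_unitOfCoprime]
    have hcong : ∀ y : 𝓞 M, φ • y - y ^ q ∈ v.asIdeal := by
      intro y
      have h4 := frob_cong 7 (M := M) (p := q) hφ y
      have h5 : Ideal.span {(q : 𝓞 M)} ≤ v.asIdeal := by
        rw [Ideal.span_singleton_le_iff_mem]
        exact hmem
      exact h5 h4
    have haM : (algebraMap F M a) ^ 2 = algebraMap F M a - 2 := by
      rw [← map_pow, ha, map_sub, map_ofNat]
    refine ⟨(v.valuation M).comap (algebraMap F M), ⟨v, rfl⟩, ?_, hw7, ?_⟩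
    · -- the valuation of the prime element
      have hne : ev b hb (pf Q ϖ i) ≠ 0 := by
        have h1 : (q : F) ≠ 0 := by exact_mod_cast hqp.ne_zero
        intro h0
        have h2 : ev b hb (pf Q ϖ i * cj (pf Q ϖ i)) = 0 := by rw [map_mul, h0, zero_mul]
        rw [mul_cj] at h2
        rcases hnorm with ⟨-, h3⟩ | ⟨-, h3⟩
        · rw [h3] at h2
          push_cast at h2
          rw [map_pow, map_natCast] at h2
          exact h1 (pow_eq_zero_iff two_ne_zero |>.1 h2)
        · rw [h3] at h2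
          push_cast at h2
          rw [map_natCast] at h2
          exact h1 h2
      obtain ⟨m, hm⟩ := vexp (w := (v.valuation M).comap (algebraMap F M)) hne
      have hm0 : m < 0 := by
        rw [hm, ← exp_zero, exp_lt_exp] at hlt
        exact hlt
      have hm1 : -1 ≤ m := by
        -- `q = π · c` with `c` integral
        have h1 : pf Q ϖ i ∣ ((q : ℕ) : RR) := by
          rcases hnorm with ⟨h3, -⟩ | ⟨-, h3⟩
          · have e : pf Q ϖ i = ((q : ℕ) : RR) := if_pos h3
            rw [e]
          · have h2 := mul_cj (pf Q ϖ i)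
            rw [h3] at h2
            exact ⟨cj (pf Q ϖ i), by rw [h2]; rfl⟩
        obtain ⟨c', hc'⟩ := h1
        have h2 := congrArg (ev b hb) hc'
        rw [map_natCast, map_mul] at h2
        have h3 := congrArg ((v.valuation M).comap (algebraMap F M)) h2
        rw [hwq1, map_mul, hm] at h3
        have h4 : exp (-1 : ℤ) ≤ exp m := by
          rw [h3]
          exact mul_le_of_le_one_right' (w_ev hb _ c')
        rwa [exp_le_exp] at h4
      rw [hm]
      congr 1
      omega
    · intro x hx hsq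
      have hrat : ∀ (ψ : Gal(M/ℚ)), ψ (algebraMap F M a) = algebraMap F M a → ∀ x : F,
          ψ (algebraMap F M x) = algebraMap F M x := by
        intro ψ hψ x
        obtain ⟨u, t, rfl⟩ := hF x
        rw [map_add, map_mul, map_ratCast, map_ratCast, map_add, map_mul, map_ratCast,
          map_ratCast, hψ]
      rcases hnorm with ⟨h3, h4⟩ | ⟨h3, h4⟩
      · -- inert
        have hfix := hrat (φ * φ) (frob_fix2 _ haM)
        have hfr : ∀ x : F, ((v.valuation M).comap (algebraMap F M)) x ≤ 1 →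
            ((v.valuation M).comap (algebraMap F M)) (x - x ^ (q * q)) < 1 := by
          intro x hx
          have h6 := frob_val v (φ := φ * φ) (Q := q * q) (mul_ne_zero hqp.ne_zero hqp.ne_zero)
            (frob_two hcong) (x := algebraMap F M x) hx
          rw [hfix x] at h6
          rw [Valuation.comap_apply, map_sub, map_pow]
          exact h6
        obtain ⟨k, hk⟩ : ∃ k, q = 2 * k + 1 := ⟨q / 2, by have := (hgp q hqS).m4; omega⟩
        refine sq_sy hb hpi hlt (N := q * q) (k := 2 * k * (k + 1)) ?_ ?_ hfr hx hsq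
        · rw [h4]
          push_cast
          ring
        · rw [hk]
          ring
      · -- split
        have hfix := hrat φ (frob_fix (hP q h3) v hmem hcong _ haM)
        have hfr : ∀ x : F, ((v.valuation M).comap (algebraMap F M)) x ≤ 1 →
            ((v.valuation M).comap (algebraMap F M)) (x - x ^ q) < 1 := by
          intro x hx
          have h6 := frob_val v (φ := φ) (Q := q) hqp.ne_zero hcong (x := algebraMap F M x) hx
          rw [hfix x] at h6
          rw [Valuation.comap_apply, map_sub, map_pow]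
          exact h6
        obtain ⟨k, hk⟩ : ∃ k, q = 2 * k + 1 := ⟨q / 2, by have := (hgp q hqS).m4; omega⟩
        exact sq_sy hb hpi hlt (N := q) (k := k) h4.symm hk hfr hx hsq

end

end Pool.Agent.R428.Q0
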