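import Pool.Agent.R428.Q0.Conv
import Pool.Agent.R428.Q0.Fh
import Pool.Agent.Y698.SG.Uj

/-!
# The formula modulo the primes above two for the twists of `X_0(49)` over a field of degree one
-/

set_option autoImplicit false
set_option linter.unusedSectionVars false

namespace Pool.Agent.R428.Q0

open Pool.Agent.Y698 Pool.Agent.Y698.SG
open NumberField IsDedekindDomain IsCyclotomicExtension.Rat WithZero WeierstrassCurve
open Pool.Agent.W189.NF Pool.Agent.TH936.CM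
open Pool.Agent.H921R2.TatePole Pool.Agent.H82R3.EK
open Pool.Agent.TH841.SH.D (Pt act)
open Pool.Agent.TH841.NF.D (Sha shaCoc)
open Gx (mx)

section
variable {r : ℕ} [hr : Fact r.Prime] (Mr : Type) [Field Mr] [NumberField Mr]
  [hMr : IsCyclotomicExtension {r} ℚ Mr] (K : Type) [Field K] [NumberField K] [Algebra K Mr]

include hMr in
/-- the product of the Tamagawa numbers -/
theorem tam0 (hn : Module.finrank ℚ K = 2 ^ 0) {Q P : Finset ℕ} (hd : DQ r Q P) {j : ℕ}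
    (hj : ∏ q ∈ Q ∪ P, q = 1 + 4 * j) :
    ∏ᶠ v : HeightOneSpectrum (𝓞 K), tam (AX K j) v = 2 ^ (1 + (Q.card + 2 * P.card)) := by
  classical
  have hG : IsGalois ℚ K := isGalK r K (M := Mr)
  have h1 := Pool.Agent.Y890.SG.t_TAM r Mr K 0 hn hd.hr Q P j hd.hQ hd.hP hj
  rw [h1]
  congr 2
  have hcard : Nat.card (XK r Mr K) = 1 := by rw [card_XK, hn, pow_zero]
  obtain ⟨hsub, -⟩ := Nat.card_eq_one_iff_unique.1 hcard
  have hu : ∀ χ : XK r Mr K, χ = 1 := fun χ => Subsingleton.elim _ _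
  rw [finsum_eq_single _ (1 : XK r Mr K) (fun χ h => absurd (hu χ) h)]
  have hr' := hd.hr.pr
  have hunit : ∀ q ∈ Q ∪ P, IsUnit (q : ZMod r) := by
    intro q hq
    rw [ZMod.isUnit_iff_coprime]
    exact (Nat.coprime_primes (hd.gp q hq).pr hr').2 (hd.ne q hq)
  unfold mx
  have e : ((1 : XK r Mr K) : DirichletCharacter ℂ r) = 1 := rfl
  rw [e]
  congr 1
  · rw [Finset.filter_true_of_mem]
    intro q hq
    rw [MulChar.one_apply (hunit q (Finset.mem_union_left _ hq)), one_pow]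
  · rw [Finset.filter_true_of_mem]
    intro q hq
    rw [MulChar.one_apply (hunit q (Finset.mem_union_right _ hq))]

include hMr in
/-- **the formula modulo the primes above two** -/
theorem level0 (hn : Module.finrank ℚ K = 2 ^ 0) {Q P : Finset ℕ} (hd : DQ r Q P) {j : ℕ}
    (hj : ∏ q ∈ Q ∪ P, q = 1 + 4 * j) :
    ∃ Λ : ℂ → ℂ, Differentiable ℂ Λ ∧ (∀ s : ℂ, 2 < s.re → Λ s = (AX K j).LSeries s) ∧
      ∀ (Γ : Type) [LinearOrderedCommGroupWithZero Γ] (v : Valuation ℂ Γ), v 2 < 1 →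
        v (quoT K j (Λ 1)) ≤ 1 ∧ (v (quoT K j (Λ 1)) = 1 ↔ (mat Q P).det ≠ 0) := by
  classical
  obtain ⟨L, Ω, hL⟩ := exists_LD
  have hQ : ∀ q ∈ Q, Inq q := fun q hq => (hd.hQ q hq).1
  by_cases hdet : (mat Q P).det = 0
  · obtain ⟨F, g1, g2, g4⟩ := val_quad0 inp Pool.Agent.Y21.SG.t_NSI hQ hd.hP hdet
    have h2 := lseries_one Mr K hn hd hj g2
    refine ⟨F, g1, h2, fun Γ _ v hv => ?_⟩
    have hreal : (starRingEnd ℂ) (F 1) = F 1 := conj_val g1 (fun k => (AX K j).LFunction k) h2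
    have hΩ : v Ω ≠ 0 := (v.ne_zero_iff).2 hL.lat.ne
    have h20 : v 2 ≠ 0 := (v.ne_zero_iff).2 two_ne_zero
    have k1 := val_all0 (N := 1) hreal hL (fun Γ _ v hv => by
      rw [pow_one]
      exact g4 Γ v L Ω hL hv) v hv
    have key : v (quoT K j (F 1)) < 1 := by
      rw [v_quoG Mr K hn hd.hr (tam0 Mr K hn hd hj) hL (F 1) v hv, pow_zero]
      exact (div_lt_one₀ (zero_lt_iff.2 (mul_ne_zero (pow_ne_zero _ h20) (pow_ne_zero _ hΩ)))).2 k1
    exact ⟨key.le, iff_of_false key.ne (not_not.2 hdet)⟩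
  · obtain ⟨F, g1, g2, g4⟩ := val_quad' inp hQ hd.hP hdet
    have h2 := lseries_one Mr K hn hd hj g2
    refine ⟨F, g1, h2, fun Γ _ v hv => ?_⟩
    have hreal : (starRingEnd ℂ) (F 1) = F 1 := conj_val g1 (fun k => (AX K j).LFunction k) h2
    have hΩ : v Ω ≠ 0 := (v.ne_zero_iff).2 hL.lat.ne
    have h20 : v 2 ≠ 0 := (v.ne_zero_iff).2 two_ne_zero
    have k1 := val_allD (N := 1) hreal hL (fun Γ _ v hv => by
      rw [pow_one]
      exact g4 Γ v L Ω hL hv) v hv
    have key : v (quoT K j (F 1)) = 1 := by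
      rw [v_quoG Mr K hn hd.hr (tam0 Mr K hn hd hj) hL (F 1) v hv, pow_zero, k1]
      exact div_self (mul_ne_zero (pow_ne_zero _ h20) (pow_ne_zero _ hΩ))
    exact ⟨key.le, iff_of_true key hdet⟩

end

end Pool.Agent.R428.Q0
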